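import Pool.Agent.Lib.MP_5684f0_lc.Defs

namespace Pool.Agent.Lib.MP_5684f0_lc.H

open Filter

open Classical in
/-- `n ∈ P3 z` iff for every `s`, for infinitely many `t`, for all but finitely many `r`, the bit
of `z` at the code of `(n, s, t, r)` is one. -/
noncomputable def P3 (z : Cs) : Cs := fun n =>
  decide (∀ s, ∃ᶠ t in atTop, ∀ᶠ r in atTop, z (Nat.pair (Nat.pair (Nat.pair n s) t) r) = true)

end Pool.Agent.Lib.MP_5684f0_lc.H
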