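import Pool.Agent.Lib.MP_5684f0_lc.H.Base
import Pool.Agent.Lib.MP_5684f0_lc.H.Defs

/-! Three nested limits, and bits that the two lower levels leave free. -/

namespace Pool.Agent.Lib.MP_5684f0_lc.H

open Filter Topology Set PiNat

/-- A double sequence with limit `g`, moduli and early values given by `k`. -/
def S (g : Cs) (k : ℕ → ℕ × Bool) : Cs := fun q =>
  if (k q.unpair.1).1 ≤ q.unpair.2 then g q.unpair.1 else (k q).2

theorem S_congr {g g' : Cs} {k k' : ℕ → ℕ × Bool} {M : ℕ} (hg : g ∈ cylinder g' M)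
    (hk : k ∈ cylinder k' M) : S g k ∈ cylinder (S g' k') M := by
  intro q hq
  have h := (Nat.unpair_left_le q).trans_lt hq
  simp only [S, hg _ h, hk _ h, hk q hq]

theorem S_lim (g : Cs) (k : ℕ → ℕ × Bool) (i : ℕ) :
    ∀ᶠ s in atTop, S g k (Nat.pair i s) = g i :=
  (eventually_ge_atTop (k i).1).mono fun s hs => by simp only [S, Nat.unpair_pair, if_pos hs]

theorem S_fix {g g0 : Cs} {m : ℕ} (hg : g ∈ cylinder g0 m) (k : ℕ → ℕ × Bool) (M : ℕ) :
    ∃ k' ∈ cylinder k m, S g0 k' ∈ cylinder (S g k) M := by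
  refine ⟨fun q => (if q < m then (k q).1 else M, if q.unpair.1 < m then (k q).2 else S g k q),
    fun q hq => by simp only [if_pos hq, if_pos ((Nat.unpair_left_le q).trans_lt hq)],
    fun q hq => ?_⟩
  have h := (Nat.unpair_right_le q).trans_lt hq
  by_cases h1 : q.unpair.1 < m
  · simp only [S, if_pos h1, hg _ h1]
  · rw [S]
    simp only [if_neg h1, if_neg h.not_ge]

/-- The second level. -/
def G2 (y : Y) : Cs := S (fun i => (y i).1) fun i => (y i).2.1
/-- The first level. -/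
def G1 (y : Y) : Cs := S (G2 y) fun i => (y i).2.2.1
/-- The real coded by a point. -/
def pr (y : Y) : Cs := S (G1 y) fun i => (y i).2.2.2
/-- The data up to level two. -/
def R2 (y : Y) (i : ℕ) : Bool × (ℕ × Bool) × (ℕ × Bool) := (G2 y i, (y i).2.2)
/-- The data up to level one. -/
def R1 (y : Y) (i : ℕ) : Bool × (ℕ × Bool) := (G1 y i, (y i).2.2.2)

theorem r2 {y y' : Y} {M : ℕ} (h : y ∈ cylinder y' M) : R2 y ∈ cylinder (R2 y') M := fun i hi =>
  Prod.ext (show G2 y i = G2 y' i from S_congr (fun j hj => congrArg (·.1) (h j hj))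
    (fun j hj => congrArg (·.2.1) (h j hj)) i hi) (congrArg (·.2.2) (h i hi))

theorem r21 {y y' : Y} {M : ℕ} (h : R2 y ∈ cylinder (R2 y') M) : R1 y ∈ cylinder (R1 y') M :=
  fun i hi => Prod.ext (show G1 y i = G1 y' i from S_congr (fun j hj => congrArg (·.1) (h j hj))
    (fun j hj => congrArg (·.2.1) (h j hj)) i hi) (congrArg (·.2.2) (h i hi))

theorem r10 {y y' : Y} {M : ℕ} (h : R1 y ∈ cylinder (R1 y') M) : pr y ∈ cylinder (pr y') M :=
  S_congr (fun j hj => congrArg (·.1) (h j hj)) fun j hj => congrArg (·.2) (h j hj)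

theorem op_of {α : Type} {F : Y → ℕ → α} (h : ∀ {y y' : Y} {M : ℕ}, y ∈ cylinder y' M →
    F y ∈ cylinder (F y') M) (z : ℕ → α) (M : ℕ) : IsOpen {y | F y ∈ cylinder z M} :=
  isOpen_iff_mem_nhds.2 fun y hy => mem_of_superset
    ((cyl_open y M).mem_nhds (self_mem_cylinder y M)) fun _ h' => cyl_trans (h h') hy

theorem continuous_pr : Continuous pr :=
  continuous_pi fun q => continuous_iff_continuousAt.2 fun y => continuousAt_const.congr
    (Eventually.mono ((cyl_open y (q + 1)).mem_nhds (self_mem_cylinder y _)) fun _ h =>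
      (r10 (r21 (r2 h)) q (Nat.lt_succ_self q)).symm)

theorem P3_pr (y : Y) (n : ℕ) : P3 (pr y) n = true ↔ ∀ s, G2 y (Nat.pair n s) = true := by
  have h1 : ∀ q, (∀ᶠ r in atTop, pr y (Nat.pair q r) = true) ↔ G1 y q = true := fun q =>
    (eventually_congr ((S_lim (G1 y) (fun i => (y i).2.2.2) q).mono fun r h => by
      rw [pr, h])).trans eventually_const
  have h2 : ∀ q, (∃ᶠ r in atTop, G1 y (Nat.pair q r) = true) ↔ G2 y q = true := fun q =>
    (frequently_congr ((S_lim (G2 y) (fun i => (y i).2.2.1) q).mono fun r h => by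
      rw [G1, h])).trans frequently_const
  simp only [P3, decide_eq_true_eq, h1, h2]

theorem exists_free {h : Y → Cs} {V : ℕ → Bool → Set Y} (hV : ∀ a b, IsOpen (V a b))
    (hG : ∀ᶠ y in residual Y, ∀ a, y ∈ V a (h y a)) (hh : ∀ y, leT (P3 (pr y)) (h y))
    (A : Set Y) (hA : IsOpen A) (hne : A.Nonempty) :
    ∃ O a, IsOpen O ∧ O.Nonempty ∧ O ⊆ A ∧ Free pr V O a := by
  by_contra hno
  have s1 : ∀ O a, IsOpen O → O.Nonempty → O ⊆ A →
      ∃ y1 ∈ O, ∃ l b, ∀ y ∈ O, R1 y ∈ cylinder (R1 y1) l → y ∉ V a b := by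
    intro O a o1 o2 o3
    by_contra hc
    push Not at hc
    refine hno ⟨O, a, o1, o2, o3, fun B b1 ⟨y1, hy1⟩ b3 b => ?_⟩
    obtain ⟨l, hl⟩ := (ev_cyl (b1.mem_nhds hy1)).exists
    obtain ⟨y, c1, c2, c3⟩ := hc y1 (b3 hy1) l b
    refine ⟨(O ∩ V a b) ∩ {y | R1 y ∈ cylinder (R1 y1) l}, (o1.inter (hV a b)).inter
      (op_of (fun h => r21 (r2 h)) _ _), ⟨y, ⟨c1, c3⟩, c2⟩, inter_subset_left, fun z hz M => ?_⟩
    obtain ⟨k', k1, k2⟩ := S_fix (g := G1 z) (g0 := G1 y1)
      (fun j hj => congrArg (·.1) (hz.2 j hj)) (fun i => (z i).2.2.2) M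
    exact ⟨fun i => ((y1 i).1, (y1 i).2.1, (y1 i).2.2.1, k' i), hl fun i hi => Prod.ext rfl
      (Prod.ext rfl (Prod.ext rfl ((k1 i hi).trans (congrArg (·.2) (hz.2 i hi))))), k2⟩
  have s2 : ∀ (y0 : Y) (m0 a : ℕ), ∀ᶠ y in residual Y, cylinder y0 m0 ⊆ A → y ∈ cylinder y0 m0 →
      ∃ M b, ∀ y' ∈ cylinder y0 m0, R2 y' ∈ cylinder (R2 y) M → y' ∉ V a b := by
    intro y0 m0 a
    refine residual_of_dense_open (isOpen_iff_mem_nhds.2 fun y hy => ?_)
      (dense_iff_inter_open.2 fun U hU ⟨z, hz⟩ => ?_)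
    · by_cases h1 : cylinder y0 m0 ⊆ A ∧ y ∈ cylinder y0 m0
      · obtain ⟨M, b, hb⟩ := hy h1.1 h1.2
        filter_upwards [(cyl_open y M).mem_nhds (self_mem_cylinder y M)] with y1 h2 _ _
        exact ⟨M, b, fun y' h3 h4 => hb y' h3 (cyl_trans h4 (r2 h2))⟩
      · filter_upwards [(cyl_open y m0).mem_nhds (self_mem_cylinder y m0)] with y1 h2 h3 h4
        exact absurd ⟨h3, cyl_trans (cyl_symm h2) h4⟩ h1
    by_cases h1 : cylinder y0 m0 ⊆ A ∧ z ∈ cylinder y0 m0
    swap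
    · exact ⟨z, hz, fun h2 h3 => absurd ⟨h2, h3⟩ h1⟩
    obtain ⟨m, hm⟩ := (ev_cyl (hU.mem_nhds hz)).exists
    obtain ⟨y1, c1, l, b, c2⟩ := s1 (cylinder y0 m0 ∩ {y | R2 y ∈ cylinder (R2 z) m}) a
      ((cyl_open _ _).inter (op_of r2 _ _)) ⟨z, h1.2, self_mem_cylinder _ _⟩
      (inter_subset_left.trans h1.1)
    obtain ⟨k', k1, k2⟩ := S_fix (g := G2 y1) (g0 := G2 z)
      (fun j hj => congrArg (·.1) (c1.2 j hj)) (fun i => (y1 i).2.2.1) l
    let y : Y := fun i => ((z i).1, (z i).2.1, k' i, (y1 i).2.2.2)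
    have h2 : y ∈ cylinder z m := fun i hi => Prod.ext rfl (Prod.ext rfl (Prod.ext
      ((k1 i hi).trans (congrArg (·.2.1) (c1.2 i hi))) (congrArg (·.2.2) (c1.2 i hi))))
    refine ⟨y, hm h2, fun _ _ => ⟨max l m, b, fun y' h3 h4 => c2 y' ⟨h3, cyl_trans
      (cylinder_anti _ (le_max_right l m) h4) (r2 h2)⟩ (cyl_trans
      (r21 (cylinder_anti _ (le_max_left l m) h4)) fun i hi => Prod.ext (k2 i hi) rfl)⟩⟩
  let r := TopologicalSpace.denseSeq Y
  obtain ⟨G, g1, g2, g3⟩ := mem_residual.1 (hG.and (eventually_countable_forall.2 fun k =>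
    eventually_countable_forall.2 fun m0 => eventually_countable_forall.2 (s2 (r k) m0)))
  obtain ⟨z, z1, z2⟩ := (g2.dense_iUnion_interior_of_closed g3
    (f := fun e => closure {y | y ∈ G ∧ U.ev (h y) e = fun n => Part.some (bit (P3 (pr y) n))})
    (fun _ => isClosed_closure) fun y hy => by
      obtain ⟨e, he⟩ := U.exists_code (leT_iff.1 (hh y))
      exact mem_iUnion.2 ⟨e, subset_closure ⟨hy, he⟩⟩).inter_open_nonempty A hA hne
  obtain ⟨e, he⟩ := mem_iUnion.1 z2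
  obtain ⟨k, hk⟩ := (TopologicalSpace.denseRange_denseSeq Y).exists_mem_open
    (hA.inter isOpen_interior) ⟨z, z1, he⟩
  obtain ⟨n, hn⟩ := (ev_cyl ((hA.inter isOpen_interior).mem_nhds hk)).exists
  have pick : ∀ W : Set Y, IsOpen W → (cylinder (r k) n ∩ W).Nonempty →
      ∃ y ∈ cylinder (r k) n ∩ W, y ∈ G ∧
        U.ev (h y) e = fun n => Part.some (bit (P3 (pr y) n)) := fun W hW ⟨y, hy⟩ =>
    mem_closure_iff.1 (interior_subset (hn hy.1).2) _ ((cyl_open _ _).inter hW) hy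
  have opn : ∀ P : D → Prop, IsOpen {y : Y | P (y n)} := fun P =>
    (isOpen_discrete {d | P d}).preimage (continuous_apply n)
  obtain ⟨y, ⟨y1, y2⟩, y3, y4⟩ := pick _ (opn fun d => d.1 = true ∧ d.2.1.1 = 0)
    ⟨Function.update (r k) n (true, (0, true), (0, true), (0, true)),
      fun i hi => Function.update_of_ne hi.ne _ _, by simp⟩
  have t1 : P3 (pr y) n = true := (P3_pr y n).2 fun s => by simp [G2, S, y2.1, y2.2]
  obtain ⟨k0, hk0⟩ := exists_cyl_subset (U.ev_open (h y) e n 1 (by simp [y4, bit, t1]))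
  choose M b hb using fun a => (g1 y3).2 k n a (fun _ h => (hn h).1) y1
  obtain ⟨k', k1, k2⟩ := S_fix (g := fun i => (y i).1)
    (g0 := Function.update (fun i => (y i).1) n false) (m := n)
    (fun i hi => by rw [Function.update_of_ne hi.ne]) (fun i => (y i).2.1)
    ((Finset.range k0).sup M)
  obtain ⟨y', ⟨a1, a2, a3⟩, a4, a5⟩ := pick _
    ((op_of r2 (R2 y) ((Finset.range k0).sup M)).inter (opn fun d => d.1 = false))
    ⟨fun i => (Function.update (fun i => (y i).1) n false i, k' i, (y i).2.2),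
      cyl_trans (fun i hi => Prod.ext (Function.update_of_ne hi.ne false fun i => (y i).1)
        (Prod.ext (k1 i hi) rfl)) y1, fun i hi => Prod.ext (k2 i hi) rfl, by simp⟩
  have t2 : h y' ∈ cylinder (h y) k0 := fun a ha => by
    have b1 := hb a y y1 (self_mem_cylinder _ _)
    have b2 := hb a y' a1 (cylinder_anti _ (Finset.le_sup (Finset.mem_range.2 ha)) a2)
    have b3 : h y a ≠ b a := fun h => b1 (h ▸ (g1 y3).1 a)
    have b4 : h y' a ≠ b a := fun h => b2 (h ▸ (g1 a4).1 a)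
    revert b3 b4
    cases h y a <;> cases h y' a <;> cases b a <;> simp
  have t3 : P3 (pr y') n = true := by_contra fun h => by simpa [a5, bit, h] using hk0 t2
  obtain ⟨s, hs⟩ := (S_lim (fun i => (y' i).1) (fun i => (y' i).2.1) n).exists
  have t4 := hs.symm.trans ((P3_pr y' n).1 t3 s)
  exact Bool.false_ne_true ((show (y' n).1 = false from a3).symm.trans t4)

end Pool.Agent.Lib.MP_5684f0_lc.H
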