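import Pool.Agent.Lib.MP_5684f0_lc.H.Sim
import Pool.Agent.Lib.MP_5684f0_lc.H.Three

/-! Finite levels of the difference hierarchy lie below every high order preserving function. -/

namespace Pool.Agent.Lib.MP_5684f0_lc.H

open Filter Topology Set PiNat

/-- Membership in `A` is guessed with a bounded number of changes of mind. -/
def FP (A : Set Cs) : Prop :=
  ∃ (N : ℕ) (u : Cs → ℕ → ℕ × Bool), (∀ t, LC univ fun y => u y t) ∧ ∀ y,
    (∀ t, (u y t).1 ≤ N ∧ (u y (t + 1) = u y t ∨ (u y (t + 1)).1 < (u y t).1)) ∧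
      ∀ᶠ t in atTop, ((u y t).2 = true ↔ y ∈ A)

theorem FP.of_open {A : Set Cs} (hA : IsOpen A) : FP A := by
  classical
  refine ⟨1, fun y t => if cylinder y t ⊆ A then (0, true) else (1, false), fun t y _ => ?_,
    fun y => ⟨fun t => ⟨by dsimp only; split_ifs <;> simp, ?_⟩, ?_⟩⟩
  · filter_upwards [mem_nhdsWithin_of_mem_nhds (cyl_mem_nhds y t)] with y' h
    rw [mem_cylinder_iff_eq.1 h]
  · by_cases h : cylinder y t ⊆ A
    · simp [h, (cylinder_anti y (Nat.le_succ t)).trans h]
    · by_cases h' : cylinder y (t + 1) ⊆ A <;> simp [h, h']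
  · by_cases h : y ∈ A
    · obtain ⟨s, hs⟩ := exists_cyl_subset (hA.mem_nhds h)
      exact (eventually_ge_atTop s).mono fun t ht => by simp [h, (cylinder_anti y ht).trans hs]
    · exact Eventually.of_forall fun t => by
        simp [h, show ¬ cylinder y t ⊆ A from fun h' => h (h' (self_mem_cylinder y t))]

theorem FP.of_closure {A : Set Cs} (hA : A ∈ BooleanSubalgebra.closure {U : Set Cs | IsOpen U}) :
    FP A := by
  induction hA using BooleanSubalgebra.closure_bot_sup_induction with
  | mem x hx => exact .of_open hx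
  | bot => exact .of_open isOpen_empty
  | sup A _ B _ h1 h2 =>
    obtain ⟨N, u, a1, a2⟩ := h1
    obtain ⟨N', u', b1, b2⟩ := h2
    refine ⟨N + N', fun y t => ((u y t).1 + (u' y t).1, (u y t).2 || (u' y t).2), fun t y hy => ?_,
      fun y => ⟨fun t => ⟨Nat.add_le_add ((a2 y).1 t).1 ((b2 y).1 t).1, ?_⟩, ?_⟩⟩
    · filter_upwards [a1 t y hy, b1 t y hy] with y' h h'
      rw [h, h']
    · dsimp only
      rcases ((a2 y).1 t).2 with h | h <;> rcases ((b2 y).1 t).2 with h' | h'
      · left; rw [h, h']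
      · right; rw [h]; exact Nat.add_lt_add_left h' _
      · right; rw [h']; exact Nat.add_lt_add_right h _
      · exact Or.inr (Nat.add_lt_add h h')
    · filter_upwards [(a2 y).2, (b2 y).2] with t h h'
      simp [h, h']
  | compl A _ h1 =>
    obtain ⟨N, u, a1, a2⟩ := h1
    refine ⟨N, fun y t => ((u y t).1, !(u y t).2), fun t y hy => (a1 t y hy).mono fun y' h => by
      simp only at h ⊢; rw [h], fun y => ⟨fun t => ⟨((a2 y).1 t).1,
        ((a2 y).1 t).2.imp_left fun h => by simp only [h]⟩, (a2 y).2.mono fun t h => by simp [← h]⟩⟩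

theorem exists_index {g : Cs → Cs} (hg : ∀ m, FP {y | g y m = true}) :
    ∃ (K : ℕ → ℕ) (U : Cs → ℕ → ℕ → ℕ), (∀ t, LC univ fun y => U y t) ∧
      (∀ y t n, U y (t + 1) n ≤ U y t n) ∧ (∀ y t n, U y t n < K n) ∧
      ∀ y n, ∀ m < n, ∀ᶠ t in atTop, (U y t n).testBit m = g y m := by
  choose N u u1 u2 using hg
  let v : Cs → ℕ → ℕ → ℕ × Bool := fun y t m => if m < t then u m y t else (N m + 1, false)
  let I : (ℕ → ℕ × Bool) → ℕ → ℕ := fun w n =>
    2 ^ n * ∑ m ∈ Finset.range n, (w m).1 + Nat.ofBits fun m : Fin n => (w m).2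
  have v1 : ∀ y t m, v y (t + 1) m = v y t m ∨ (v y (t + 1) m).1 < (v y t m).1 := by
    intro y t m
    rcases lt_trichotomy m t with h | rfl | h
    · simpa only [v, if_pos h, if_pos (h.trans t.lt_succ_self)] using ((u2 m y).1 t).2
    · exact Or.inr (by simpa [v, Nat.lt_succ_iff] using ((u2 m y).1 (m + 1)).1)
    · exact Or.inl (by simp only [v, if_neg h.not_gt, if_neg (show ¬ m < t + 1 by omega)])
  refine ⟨fun n => 2 ^ n * ∑ m ∈ Finset.range n, (N m + 1) + 2 ^ n, fun y t => I (v y t),
    fun t y hy => ?_, fun y t n => ?_, fun y t n => Nat.add_lt_add_of_le_of_lt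
      (Nat.mul_le_mul_left _ (Finset.sum_le_sum fun m _ => ?_)) (Nat.ofBits_lt_two_pow _),
    fun y n m hm => ?_⟩
  · filter_upwards [(Finset.eventually_all (Finset.range t)).2 fun m _ => u1 m t y hy] with y' h
    refine congrArg I (funext fun m => ?_)
    by_cases hm : m < t
    · simpa only [v, if_pos hm] using h m (Finset.mem_range.2 hm)
    · simp only [v, if_neg hm]
  · by_cases h : ∀ m < n, v y (t + 1) m = v y t m
    · refine le_of_eq (congrArg₂ (2 ^ n * · + ·) (Finset.sum_congr rfl fun m hm => ?_)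
        (congrArg Nat.ofBits (funext fun m => ?_)))
      exacts [by rw [h m (Finset.mem_range.1 hm)], by rw [h m m.2]]
    · push Not at h
      obtain ⟨m, hm, h⟩ := h
      have h1 := Finset.sum_lt_sum (s := Finset.range n) (fun m _ => (v1 y t m).elim
        (fun h => (congrArg Prod.fst h).le) le_of_lt)
        ⟨m, Finset.mem_range.2 hm, (v1 y t m).resolve_left h⟩
      have h2 := Nat.mul_le_mul_left (2 ^ n) (Nat.succ_le_of_lt h1)
      have h3 := Nat.ofBits_lt_two_pow fun m : Fin n => (v y (t + 1) m).2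
      rw [Nat.mul_succ] at h2
      simp only [I]
      omega
  · simp only [v]
    split_ifs
    exacts [((u2 m y).1 t).1.trans (Nat.le_succ _), le_rfl]
  · filter_upwards [(u2 m y).2, eventually_gt_atTop m] with t h ht
    simp only [I, Nat.testBit_two_pow_mul_add _ (Nat.ofBits_lt_two_pow _), if_pos hm,
      Nat.testBit_ofBits_lt _ _ hm, v, if_pos ht]
    exact Bool.eq_iff_iff.2 h

theorem high0 {f g : Cs → Cs} (hf : Measurable f) (hop : OP f) (hh : ∀ z, leT (P3 z) (f z))
    (hg : ∀ m, FP {y | g y m = true}) : leCone g f := by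
  obtain ⟨e, he⟩ := exists_enum
  have mb : ∀ {X : Type} [TopologicalSpace X] [MeasurableSpace X] [BorelSpace X] {φ : X → Cs},
      Continuous φ → ∀ n, Measurable fun x => f (φ x) n :=
    fun hφ n => (measurable_pi_apply n).comp (hf.comp hφ.measurable)
  choose V hV hV' using fun (a : ℕ) (b : Bool) =>
    (mb continuous_pr a (measurableSet_singleton b)).residualEq_isOpen
  have hG : ∀ᶠ y in residual Y, ∀ a b, f (pr y) a = b ↔ y ∈ V a b :=
    eventually_countable_forall.2 fun a => eventually_countable_forall.2 fun b =>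
      (hV' a b).mem_iff
  let cd : (ℕ → Y) → Cs := fun w => code fun m => pr (w m)
  have hcd : Continuous cd := continuous_code.comp
    (continuous_pi fun m => continuous_pr.comp (continuous_apply m))
  have hsh : ∀ i, Continuous fun (w : ℕ → Y) m => w (m + i) := fun i =>
    continuous_pi fun m => continuous_apply _
  let Z0 : ℕ → Set (ℕ → Y) := fun d =>
    (⋂ n, {w | f (cd fun m => w (m + 1)) n = f (cd w) (e d.unpair.1 n)}) ∩
      ⋂ n, {w | f (pr (w 0)) n = f (cd w) (e d.unpair.2 n)}
  choose Z hZ hZ' using fun d => MeasurableSet.residualEq_isOpen (s := Z0 d)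
    ((MeasurableSet.iInter fun n => measurableSet_eq_fun (mb (hcd.comp (hsh 1)) n) (mb hcd _)).inter
      (.iInter fun n => measurableSet_eq_fun
        (mb (continuous_pr.comp (continuous_apply 0)) n) (mb hcd _)))
  have hZ1 : ∀ᶠ w in residual (ℕ → Y), ∀ d, w ∈ Z0 d ↔ w ∈ Z d :=
    eventually_countable_forall.2 fun d => (hZ' d).mem_iff
  have hd : Dense (⋃ d, Z d) := dense_of_mem_residual (hZ1.mono fun w hw => by
    obtain ⟨ρ, hρ, h1⟩ := hop _ _ (leT_code_shift fun m => pr (w m))
    obtain ⟨σ, hσ, h2⟩ := hop _ _ (leT_code_zero fun m => pr (w m))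
    obtain ⟨i, rfl⟩ := he ρ hρ
    obtain ⟨j, rfl⟩ := he σ hσ
    exact mem_iUnion.2 ⟨Nat.pair i j, (hw _).1 ⟨mem_iInter.2 fun n => by
      simpa only [Nat.unpair_pair, mem_ofPred_eq] using h1 n, mem_iInter.2 fun n => by
      simpa only [Nat.unpair_pair, mem_ofPred_eq] using h2 n⟩⟩)
  have hso : ∀ i, IsOpenMap fun (w : ℕ → Y) m => w (m + i) := fun i => .of_sections fun w =>
    ⟨fun v m => if m < i then w m else v (m - i), (continuous_pi fun m => by
      split_ifs; exacts [continuous_const, continuous_apply _]).continuousAt,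
      funext fun m => by
        dsimp only; split_ifs with h; exacts [rfl, by rw [Nat.sub_add_cancel (not_lt.1 h)]],
      fun v => funext fun m => by simp⟩
  obtain ⟨T, t1, t2, t3, t4⟩ := mem_residual_iff.1 ((eventually_countable_forall.2 fun i =>
    (tendsto_residual_of_isOpenMap (hsh i) (hso i)).eventually hZ1).and
    (eventually_countable_forall.2 fun m => (tendsto_residual_of_isOpenMap
      (continuous_apply (A := fun _ : ℕ => Y) m) (isOpenMap_eval m)).eventually hG))
  obtain ⟨E, hE⟩ := (t3.insert univ).exists_eq_range (insert_nonempty _ _)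
  have hE' : ∀ j, IsOpen (E j) ∧ Dense (E j) := fun j => by
    rcases (hE ▸ mem_range_self j : E j ∈ insert univ T) with h | h
    exacts [h ▸ ⟨isOpen_univ, dense_univ⟩, ⟨t1 _ h, t2 _ h⟩]
  obtain ⟨K, U, u1, u2, u3, u4⟩ := exists_index hg
  obtain ⟨O, a, d, o1, o2, o3⟩ := base (exists_free (h := fun y => f (pr y)) hV
    (hG.mono fun y hy a => (hy a _).1 rfl) fun y => hh _) hZ hd (fun j => (hE' j).1)
    (fun j => (hE' j).2) K
  obtain ⟨w, w1, w2⟩ := sim continuous_pr o1 o3 u1 u2 u3 u4
  have hw := fun y => t4 (a := w y) fun s hs => by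
    obtain ⟨j, rfl⟩ : s ∈ range E := hE ▸ mem_insert_of_mem _ hs
    exact (w2 y).2 j
  have hz := fun y i => ((hw y).1 i _).2 (o2 i (w y) fun m => ((w2 y).1 m).1)
  let κ : ℕ → ℕ → ℕ := fun i => Nat.rec id (fun i k n => k (e (d i).unpair.1 n)) i
  obtain ⟨c, hc⟩ := exists_leT_of_lc (Y := univ) (θ := fun y => cd (w y)) fun n => w1 _ _
  obtain ⟨c', hc'⟩ := exists_rec fun m => κ m (e (d m).unpair.2 (a m))
  obtain ⟨c2, h1, h2⟩ := exists_upper2 c c'
  refine ⟨c2, fun y hy => ?_⟩
  obtain ⟨ρ, hρ, h⟩ := hop _ _ (hc y trivial (h1.trans hy))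
  refine ⟨_, tr_iff.2 ((Rec.of_computable hρ).comp (hc'.mono h2)), fun m => ?_⟩
  have hκ : ∀ i n, f (cd fun m => w y (m + i)) n = f (cd (w y)) (κ i n) := by
    intro i
    induction i with
    | zero => exact fun n => rfl
    | succ i ih =>
      intro n
      have h1 := mem_iInter.1 (hz y i).1 n
      simp only [mem_ofPred_eq, Nat.add_right_comm _ 1 i] at h1
      exact h1.trans (ih _)
  have h3 := mem_iInter.1 (hz y m).2 (a m)
  simp only [mem_ofPred_eq, Nat.zero_add] at h3
  rw [← ((hw y).2 m _ _).2 ((w2 y).1 m).2, h3, hκ, h]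

theorem high {f g : Cs → Cs} {c : Cs} (hf : Measurable f)
    (hop : ∀ x y, leT c x → leT x y → leM (f x) (f y))
    (hh : ∀ x z, leT c x → leT z x → leT (P3 z) (f x))
    (hg : ∀ a, {x | g x a = true} ∈ BooleanSubalgebra.closure {U : Set Cs | IsOpen U}) :
    leCone g f :=
  leCone_of (c := c) (c' := c) (high0 (f := fun x => f (join x c))
    (hf.comp (continuous_join c).measurable)
    (fun x y h => hop _ _ (leT_join_right x c)
      (join_leT (h.trans (leT_join_left y c)) (leT_join_right y c)))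
    (fun z => hh _ _ (leT_join_right z c) (leT_join_left z c)) fun m => .of_closure (hg m))
    (fun _ _ => ⟨id, Computable.id, fun _ => rfl⟩)
    fun x hx => hop _ _ (leT_join_right x c) (join_leT (leT_refl x) hx)

end Pool.Agent.Lib.MP_5684f0_lc.H
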