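import Pool.Agent.Lib.MP_5684f0_lc.H.Base

/-!
The finite injury simulation: a point of the base that meets countably many dense open sets and
follows finitely many changes of mind on each board.
-/

namespace Pool.Agent.Lib.MP_5684f0_lc.H

open Filter Topology Set PiNat

/-- A state of the construction: height, break points, families, current witness. -/
structure Sta where
  h : ℕ
  N : ℕ → ℕ
  Q : ℕ → ℕ → ℕ → Set Y
  x : ℕ → Y

variable {p : Y → Cs} {V : ℕ → Bool → Set Y} {O : ℕ → Set Y} {a K : ℕ → ℕ} {E : ℕ → Set (ℕ → Y)}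

/-- The invariant of the construction for the current indices `v`. -/
structure Inv (p : Y → Cs) (V : ℕ → Bool → Set Y) (O : ℕ → Set Y) (a K : ℕ → ℕ)
    (E : ℕ → Set (ℕ → Y)) (v : ℕ → ℕ) (σ : Sta) : Prop where
  zero : σ.N 0 = 0
  mono : ∀ j j', j < j' → j' ≤ σ.h → σ.N j < σ.N j'
  fam : ∀ j < σ.h, ∃ u, Fam p V O a (σ.N (j + 1)) (σ.N j) (K (σ.N (j + 1))) u (E j) (σ.Q j) ∧
    ∀ j' < j, ∀ m < σ.N (j' + 1), u m ⊆ σ.Q j' (v (σ.N (j' + 1))) m
  mem : ∀ m, σ.x m ∈ O m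
  memQ : ∀ j < σ.h, ∀ m < σ.N (j + 1), σ.x m ∈ σ.Q j (v (σ.N (j + 1))) m

theorem Inv.le {v : ℕ → ℕ} {σ : Sta} (h : Inv p V O a K E v σ) {j j' : ℕ} (h1 : j ≤ j')
    (h2 : j' ≤ σ.h) : σ.N j ≤ σ.N j' := by
  rcases h1.eq_or_lt with rfl | h1
  exacts [le_rfl, (h.mono _ _ h1 h2).le]

theorem Inv.pop {v v' : ℕ → ℕ} {σ : Sta} (h : Inv p V O a K E v σ) (hv : ∀ n, v' n ≤ v n)
    (t : ℕ) : ∃ h1 x1, Inv p V O a K E v' ⟨h1, σ.N, σ.Q, x1⟩ ∧
      (∀ m, p (x1 m) ∈ cylinder (p (σ.x m)) t) ∧ h1 ≤ σ.h ∧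
      ∀ j < σ.h, (∀ j' < j, v' (σ.N (j' + 1)) = v (σ.N (j' + 1))) → j < h1 := by
  classical
  by_cases hc : ∃ j, j < σ.h ∧ v' (σ.N (j + 1)) ≠ v (σ.N (j + 1))
  swap
  · push Not at hc
    refine ⟨σ.h, σ.x, ⟨h.zero, h.mono, fun j hj => ?_, h.mem, fun j hj m hm => ?_⟩,
      fun m => self_mem_cylinder _ _, le_rfl, fun j hj _ => hj⟩
    · obtain ⟨u, h1, h2⟩ := h.fam j hj
      exact ⟨u, h1, fun j' hj' m hm => by rw [hc j' (hj'.trans hj)]; exact h2 j' hj' m hm⟩
    · rw [hc j hj]; exact h.memQ j hj m hm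
  obtain ⟨hr, hr'⟩ := Nat.find_spec hc
  have hlt : ∀ j < Nat.find hc, v' (σ.N (j + 1)) = v (σ.N (j + 1)) := fun j hj => by
    by_contra h'
    exact Nat.find_min hc hj ⟨hj.trans hr, h'⟩
  generalize Nat.find hc = r at hr hr' hlt
  obtain ⟨u, hu, hu'⟩ := h.fam r hr
  have h1 : ∀ m, ∃ y, p y ∈ cylinder (p (σ.x m)) t ∧ y ∈ O m ∧
      (m < σ.N (r + 1) → y ∈ σ.Q r (v' (σ.N (r + 1))) m) := by
    intro m
    by_cases hm : m < σ.N (r + 1)
    · obtain ⟨y, y1, y2⟩ := hu.sh _ _ (hv _) m hm _ (h.memQ r hr m hm) t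
      exact ⟨y, y2, hu.sub _ m hm y1, fun _ => y1⟩
    · exact ⟨σ.x m, self_mem_cylinder _ _, h.mem m, fun h' => absurd h' hm⟩
  choose x1 b1 b2 b3 using h1
  refine ⟨r + 1, x1, ⟨h.zero, fun j j' h1 h2 => h.mono j j' h1 (le_trans h2 hr), fun j hj => ?_,
    b2, fun j hj m hm => ?_⟩, b1, hr, fun j _ hj => ?_⟩
  · have hj : j < r + 1 := hj
    obtain ⟨u, h1, h2⟩ := h.fam j (by omega)
    exact ⟨u, h1, fun j' hj' m hm => by rw [hlt j' (by omega)]; exact h2 j' hj' m hm⟩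
  · rcases (Nat.lt_succ_iff.1 hj).eq_or_lt with rfl | hj
    · exact b3 m hm
    · have h2 : m < σ.N r := lt_of_lt_of_le hm (h.le hj hr.le)
      have h3 : m < σ.N (r + 1) := h2.trans (h.mono _ _ (Nat.lt_succ_self r) hr)
      rw [hlt j hj]; exact hu' j hj m hm (hu.low _ m h3 h2 (b3 m h3))
  · by_contra h'
    exact hr' (hj r (by omega))

theorem Inv.push (hp : Continuous p) (hO : ∀ m, IsOpen (O m))
    (hB : ∀ (x : ℕ → Y) (s l i j : ℕ), (∀ m < s, cylinder (x m) l ⊆ O m) →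
      ∃ n, s ≤ n ∧ ∃ Q, Fam p V O a n i (K n) (st x s l O) (E j) Q)
    {v : ℕ → ℕ} {σ : Sta} (h : Inv p V O a K E v σ) (t : ℕ) :
    ∃ σ' : Sta, Inv p V O a K E v σ' ∧ (∀ m < t, p (σ'.x m) ∈ cylinder (p (σ.x m)) t) ∧
      σ'.h = σ.h + 1 ∧ (∀ j ≤ σ.h, σ'.N j = σ.N j) ∧ ∀ j < σ.h, σ'.Q j = σ.Q j := by
  set s := max t (σ.N σ.h + 1) with hs
  have h1 : ∀ᶠ l in atTop, ∀ m ∈ Finset.range s, cylinder (σ.x m) l ⊆
      {y | y ∈ O m ∧ p y ∈ cylinder (p (σ.x m)) t ∧ ∀ j ∈ Finset.range σ.h,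
        m < σ.N (j + 1) → y ∈ σ.Q j (v (σ.N (j + 1))) m} := by
    refine (Finset.eventually_all _).2 fun m _ => ev_cyl (Eventually.and
      ((hO m).mem_nhds (h.mem m)) (Eventually.and (hp.continuousAt (cyl_mem_nhds _ t))
        ((Finset.eventually_all _).2 fun j hj => ?_)))
    by_cases hm : m < σ.N (j + 1)
    · obtain ⟨u, hu, -⟩ := h.fam j (Finset.mem_range.1 hj)
      filter_upwards [(hu.small _ m hm).op.mem_nhds (h.memQ j (Finset.mem_range.1 hj) m hm)]
        with y hy _ using hy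
    · exact Eventually.of_forall fun _ h' => absurd h' hm
  obtain ⟨l, hl⟩ := h1.exists
  simp only [Finset.mem_range] at hl
  obtain ⟨n, hn, Qn, hQ⟩ := hB σ.x s l (σ.N σ.h) σ.h fun m hm y hy => (hl m hm hy).1
  have e0 : ∀ m < s, st σ.x s l O m = cylinder (σ.x m) l := fun m hm => if_pos hm
  have h2 : ∀ m, ∃ y, (m < t → p y ∈ cylinder (p (σ.x m)) t) ∧ y ∈ O m ∧
      (m < n → y ∈ Qn (v n) m) := by
    intro m
    by_cases hm : m < n
    · obtain ⟨y, hy⟩ := (hQ.small (v n) m hm).ne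
      refine ⟨y, fun ht => ?_, hQ.sub _ m hm hy, fun _ => hy⟩
      obtain ⟨y', y1, y2⟩ := hQ.sh0 _ m hm y hy t
      rw [e0 m (by omega)] at y1
      exact cyl_trans (cyl_symm y2) (hl m (by omega) y1).2.1
    · exact ⟨σ.x m, fun _ => self_mem_cylinder _ _, h.mem m, fun h' => absurd h' hm⟩
  choose x1 b1 b2 b3 using h2
  have eN : ∀ j ≤ σ.h, Function.update σ.N (σ.h + 1) n j = σ.N j := fun j hj =>
    Function.update_of_ne (by omega) _ _
  have eQ : ∀ j < σ.h, Function.update σ.Q σ.h Qn j = σ.Q j := fun j hj =>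
    Function.update_of_ne hj.ne _ _
  have nest : ∀ j < σ.h, ∀ m < σ.N (j + 1), st σ.x s l O m ⊆ σ.Q j (v (σ.N (j + 1))) m := by
    intro j hj m hm y hy
    have := h.le (show j + 1 ≤ σ.h from hj) le_rfl
    rw [e0 m (by omega)] at hy
    exact (hl m (by omega) hy).2.2 j hj hm
  refine ⟨⟨σ.h + 1, Function.update σ.N (σ.h + 1) n, Function.update σ.Q σ.h Qn, x1⟩,
    ⟨(eN 0 (Nat.zero_le _)).trans h.zero, fun j j' h1 h2 => ?_, fun j hj => ?_, b2,
      fun j hj m hm => ?_⟩, b1, rfl, eN, eQ⟩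
  · simp only at h2 ⊢
    rcases h2.eq_or_lt with rfl | h2
    · have := h.le (show j ≤ σ.h by omega) le_rfl
      rw [eN j (by omega), Function.update_self]
      omega
    · rw [eN j (by omega), eN j' (by omega)]
      exact h.mono j j' h1 (by omega)
  · simp only at hj ⊢
    rcases (Nat.lt_succ_iff.1 hj).eq_or_lt with rfl | hj
    · rw [Function.update_self, Function.update_self, eN _ le_rfl]
      refine ⟨_, hQ, fun j' hj' m hm => ?_⟩
      rw [eN _ hj'] at hm ⊢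
      rw [eQ _ hj']
      exact nest j' hj' m hm
    · obtain ⟨u, u1, u2⟩ := h.fam j hj
      rw [eN _ hj, eN _ hj.le, eQ _ hj]
      refine ⟨u, u1, fun j' hj' m hm => ?_⟩
      rw [eN _ (show j' + 1 ≤ σ.h by omega)] at hm ⊢
      rw [eQ _ (hj'.trans hj)]
      exact u2 j' hj' m hm
  · simp only at hj hm ⊢
    rcases (Nat.lt_succ_iff.1 hj).eq_or_lt with rfl | hj
    · rw [Function.update_self] at hm ⊢
      rw [Function.update_self]
      exact b3 m hm
    · rw [eN _ hj] at hm ⊢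
      rw [eQ _ hj]
      have : m < σ.N σ.h := lt_of_lt_of_le hm (h.le hj le_rfl)
      exact nest j hj m hm (hQ.low _ m (by omega) (by omega) (b3 m (by omega)))

theorem sim (hp : Continuous p) (hO : ∀ m, IsOpen (O m) ∧ (O m).Nonempty)
    (hB : ∀ (x : ℕ → Y) (s l i j : ℕ), (∀ m < s, cylinder (x m) l ⊆ O m) →
      ∃ n, s ≤ n ∧ ∃ Q, Fam p V O a n i (K n) (st x s l O) (E j) Q)
    {U : Cs → ℕ → ℕ → ℕ} (hU : ∀ t, LC univ fun y => U y t)
    (hanti : ∀ y t n, U y (t + 1) n ≤ U y t n) (hK : ∀ y t n, U y t n < K n)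
    {g : Cs → Cs} (hg : ∀ y n, ∀ m < n, ∀ᶠ t in atTop, (U y t n).testBit m = g y m) :
    ∃ w : Cs → ℕ → Y, (∀ m k, LC univ fun y => p (w y m) k) ∧
      ∀ y, (∀ m, w y m ∈ O m ∧ w y m ∈ V (a m) (g y m)) ∧ ∀ j, w y ∈ E j := by
  have h0 : ∀ (t : ℕ) (v v' : ℕ → ℕ) (σ : Sta), ∃ σ' : Sta, Inv p V O a K E v σ →
      (∀ n, v' n ≤ v n) → Inv p V O a K E v' σ' ∧
      (∀ m < t, p (σ'.x m) ∈ cylinder (p (σ.x m)) t) ∧
      ∀ j ≤ σ.h, (∀ j' < j, v' (σ.N (j' + 1)) = v (σ.N (j' + 1))) → j < σ'.h ∧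
        (j < σ.h → σ'.N (j + 1) = σ.N (j + 1) ∧ σ'.Q j = σ.Q j) := by
    intro t v v' σ
    by_cases h : Inv p V O a K E v σ ∧ ∀ n, v' n ≤ v n
    swap
    · exact ⟨σ, fun h1 h2 => absurd ⟨h1, h2⟩ h⟩
    obtain ⟨h1, x1, a1, a2, a3, a4⟩ := h.1.pop h.2 t
    obtain ⟨σ', b1, b2, b3, b4, b5⟩ := a1.push hp (fun m => (hO m).1) hB t
    refine ⟨σ', fun _ _ => ⟨b1, fun m hm => cyl_trans (b2 m hm) (a2 m), fun j hj hv => ⟨?_,
      fun hj' => ⟨b4 _ (a4 j hj' hv), b5 _ (a4 j hj' hv)⟩⟩⟩⟩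
    simp only at b3
    rcases j with _ | j
    · omega
    · have := a4 j hj fun j' h => hv j' (by omega)
      omega
  choose F hF using h0
  choose o ho using fun m => (hO m).2
  let S : Cs → ℕ → Sta := fun y t => Nat.rec ⟨0, fun _ => 0, fun _ _ _ => univ, o⟩
    (fun t σ => F t (U y t) (U y (t + 1)) σ) t
  have hS : ∀ y t, S y (t + 1) = F t (U y t) (U y (t + 1)) (S y t) := fun _ _ => rfl
  have hlc : ∀ t, LC univ fun y => S y t := by
    intro t
    induction t with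
    | zero => exact fun y _ => Eventually.of_forall fun _ => rfl
    | succ t ih =>
      intro y hy
      filter_upwards [ih y hy, hU t y hy, hU (t + 1) y hy] with y' h1 h2 h3
      rw [hS, hS, h1, h2, h3]
  have hI : ∀ y t, Inv p V O a K E (U y t) (S y t) := by
    intro y t
    induction t with
    | zero => exact ⟨rfl, fun j j' h1 h2 => absurd (h1.trans_le h2) (Nat.not_lt_zero j),
        fun j hj => absurd hj (Nat.not_lt_zero j), ho, fun j hj => absurd hj (Nat.not_lt_zero j)⟩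
    | succ t ih => exact (hF t _ _ _ ih (hanti y t)).1
  have key : ∀ y, ∃ w : ℕ → Y, (∀ m, Tendsto (fun t => (S y t).x m) atTop (𝓝 (w m))) ∧
      (∀ m, w m ∈ O m ∧ w m ∈ V (a m) (g y m)) ∧ ∀ j, w ∈ E j := by
    intro y
    have stab : ∀ j, ∃ n Q ι, ∀ᶠ t in atTop, j < (S y t).h ∧ (S y t).N (j + 1) = n ∧
        (S y t).Q j = Q ∧ U y t n = ι := by
      intro j
      induction j using Nat.strong_induction_on with
      | _ j ih =>
      choose! n Q ι hn using ih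
      obtain ⟨T, hT⟩ := eventually_atTop.1 ((Finset.eventually_all (Finset.range j)).2
        fun j' hj' => hn j' (Finset.mem_range.1 hj'))
      simp only [Finset.mem_range] at hT
      have k1 := fun t (ht : T ≤ t) => (hF t _ _ _ (hI y t) (hanti y t)).2.2 j (by
        rcases j with _ | j
        exacts [Nat.zero_le _, (hT t ht j (Nat.lt_succ_self j)).1]) fun j' hj' => by
          rw [(hT t ht j' hj').2.1, (hT t ht j' hj').2.2.2, (hT (t + 1) (by omega) j' hj').2.2.2]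
      have k2 : ∀ t, T + 1 ≤ t → j < (S y t).h ∧ (S y t).N (j + 1) = (S y (T + 1)).N (j + 1) ∧
          (S y t).Q j = (S y (T + 1)).Q j := by
        intro t ht
        induction ht with
        | refl => exact ⟨(k1 T le_rfl).1, rfl, rfl⟩
        | @step t ht ih =>
          have k3 := k1 t (Nat.le_of_succ_le ht)
          exact ⟨k3.1, (k3.2 ih.1).1.trans ih.2.1, (k3.2 ih.1).2.trans ih.2.2⟩
      obtain ⟨T', hT'⟩ := WellFoundedLT.antitone_chain_condition
        (antitone_nat_of_succ_le (f := fun t => U y t ((S y (T + 1)).N (j + 1))) fun t => hanti y t _)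
      exact ⟨_, _, _, ((eventually_ge_atTop (T + 1)).and (eventually_ge_atTop T')).mono fun t h =>
        ⟨(k2 t h.1).1, (k2 t h.1).2.1, (k2 t h.1).2.2, (hT' t h.2).symm⟩⟩
    choose n Q ι hn using stab
    let n0 : ℕ → ℕ := fun j => Nat.casesOn j 0 n
    have hn0 : ∀ j, ∀ᶠ t in atTop, (S y t).N j = n0 j := by
      rintro (_ | j)
      exacts [Eventually.of_forall fun t => (hI y t).zero, (hn j).mono fun t h => h.2.1]
    have fam : ∀ j, n0 j < n j ∧ ι j < K (n j) ∧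
        ∃ u, Fam p V O a (n j) (n0 j) (K (n j)) u (E j) (Q j) := by
      intro j
      obtain ⟨t, ⟨h1, h2, h3, h4⟩, h5⟩ := ((hn j).and (hn0 j)).exists
      obtain ⟨u, hu, -⟩ := (hI y t).fam j h1
      have h6 := (hI y t).mono j (j + 1) (Nat.lt_succ_self j) h1
      rw [h2, h5] at h6
      rw [h2, h3, h5] at hu
      exact ⟨h6, h4 ▸ hK y t (n j), u, hu⟩
    have hx : ∀ j, ∀ m < n j, ∀ᶠ t in atTop, (S y t).x m ∈ Q j (ι j) m := fun j m hm =>
      (hn j).mono fun t h => by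
        have := (hI y t).memQ j h.1 m (h.2.1 ▸ hm)
        rwa [h.2.1, h.2.2.1, h.2.2.2] at this
    have big : ∀ j, j < n j := by
      intro j
      induction j with
      | zero => exact (fam 0).1
      | succ j ih => exact lt_of_le_of_lt ih (fam (j + 1)).1
    have conv : ∀ m k, ∃ e, ∀ᶠ t in atTop, (S y t).x m k = e := by
      intro m k
      obtain ⟨-, -, u, hu⟩ := fam (max m k)
      have := big (max m k)
      obtain ⟨y0, l, hl, he⟩ := hu.small (ι (max m k)) m (by omega)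
      exact ⟨y0 k, (hx (max m k) m (by omega)).mono fun t h => (he ▸ h : _ ∈ cylinder y0 l) k
        (by omega)⟩
    choose w hw using conv
    have inQ : ∀ j, ∀ m < n j, w m ∈ Q j (ι j) m := by
      intro j m hm
      obtain ⟨-, -, u, hu⟩ := fam j
      obtain ⟨y0, l, -, he⟩ := hu.small (ι j) m hm
      rw [he]
      intro k hk
      obtain ⟨t, h1, h2⟩ := ((hx j m hm).and (hw m k)).exists
      rw [he] at h1
      exact h2.symm.trans (h1 k hk)
    have inO : ∀ m, w m ∈ O m := fun m =>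
      (fam m).2.2.choose_spec.sub _ m (big m) (inQ m m (big m))
    refine ⟨w, fun m => tendsto_pi_nhds.2 fun k => tendsto_const_nhds.congr'
      ((hw m k).mono fun t h => h.symm), fun m => ⟨inO m, ?_⟩, fun j =>
      (fam j).2.2.choose_spec.den _ (fam j).2.1 w (inQ j) fun m _ => inO m⟩
    classical
    have ex : ∃ j, m < n j := ⟨m, big m⟩
    have h1 := Nat.find_spec ex
    have h2 : n0 (Nat.find ex) ≤ m := by
      have h3 := fun j => Nat.find_min ex (m := j)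
      generalize Nat.find ex = j at h3
      rcases j with _ | j
      exacts [Nat.zero_le _, not_lt.1 (h3 j (Nat.lt_succ_self j))]
    generalize Nat.find ex = j at h1 h2
    obtain ⟨t, h3, h4⟩ := ((hn j).and (hg y _ m h1)).exists
    rw [← h4, h3.2.2.2]
    exact (fam j).2.2.choose_spec.bit _ m h1 h2 (inQ j m h1)
  choose w w1 w2 using key
  refine ⟨w, fun m k => ?_, w2⟩
  have e : ∀ y, p (w y m) k = p ((S y (max m k + 1)).x m) k := by
    intro y
    have h1 : ∀ t, max m k + 1 ≤ t → p ((S y t).x m) k = p ((S y (max m k + 1)).x m) k := by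
      intro t ht
      induction ht with
      | refl => rfl
      | @step t ht ih =>
        have ht : max m k + 1 ≤ t := ht
        exact ((hF t _ _ _ (hI y t) (hanti y t)).2.1 m (by omega) k (by omega)).trans ih
    have h2 := (((continuous_apply k).comp hp).tendsto _).comp (w1 y m)
    exact tendsto_nhds_unique h2 (tendsto_const_nhds.congr'
      ((eventually_ge_atTop _).mono fun t ht => (h1 t ht).symm))
  intro y hy
  filter_upwards [hlc (max m k + 1) y hy] with y' h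
  rw [e, e, h]

end Pool.Agent.Lib.MP_5684f0_lc.H
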